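import Pool.Agent.R113.ZD.Step

/-!
# The extension map of a marked morphism
-/

set_option autoImplicit false

namespace Pool.Agent.R113.ZD

variable {A : Type*}

/-- the data extracted from a marked morphism: two conjugate morphisms `F` and `G` such that `F a`
ends with `a` and `G a` begins with `a` -/
structure Dat (u : ℕ → A) where
  F : A → List A
  G : A → List A
  c : List A
  hc : ∀ a, F a ++ c = c ++ G a
  hF : ∀ a, ∃ t, F a = t ++ [a]
  hG : ∀ a, ∃ t, G a = a :: t
  hL : ∀ w, Fac u w → Fac u (ext F w ++ c)
  hall : ∀ a b, b ∈ F a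

namespace Dat

variable {u : ℕ → A} (D : Dat u)

/-- the extension map -/
def Ψ (w : List A) : List A := ext D.F w ++ D.c

theorem psi_eq (w : List A) : D.Ψ w = D.c ++ ext D.G w := by
  unfold Ψ
  induction w with
  | nil => simp
  | cons a w ih =>
    rw [ext_cons, ext_cons, List.append_assoc, ih, ← List.append_assoc, D.hc, List.append_assoc]

theorem psi_two (x : A) (w : List A) (y : A) :
    D.Ψ (x :: (w ++ [y])) = D.F x ++ D.Ψ w ++ D.G y := by
  unfold Ψ
  simp only [ext_cons, ext_append, ext_nil, List.append_nil, List.append_assoc]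
  rw [D.hc]

theorem psi_fac {x : A} {w : List A} {y : A} (h : Fac u (x :: (w ++ [y]))) :
    Fac u (x :: (D.Ψ w ++ [y])) := by
  have h1 := D.hL _ h
  change Fac u (D.Ψ _) at h1
  rw [psi_two] at h1
  obtain ⟨s, hs⟩ := D.hF x
  obtain ⟨t, ht⟩ := D.hG y
  refine h1.sub ⟨s, t, ?_⟩
  rw [hs, ht]
  simp

theorem psi_fac_iter {x : A} {w : List A} {y : A} (h : Fac u (x :: (w ++ [y]))) (k : ℕ) :
    Fac u (x :: (D.Ψ^[k] w ++ [y])) := by
  induction k with
  | zero => exact h
  | succ k ih =>
    rw [Function.iterate_succ_apply']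
    exact D.psi_fac ih

theorem two_le_length [Nontrivial A] (a : A) : 2 ≤ (D.F a).length := by
  obtain ⟨x, y, hxy⟩ := exists_pair_ne A
  have hx := D.hall a x
  have hy := D.hall a y
  by_contra hcon
  rcases h : D.F a with _ | ⟨p, _ | ⟨q, t⟩⟩
  · rw [h] at hx; simp at hx
  · rw [h] at hx hy
    simp only [List.mem_singleton] at hx hy
    exact hxy (hx.trans hy.symm)
  · rw [h] at hcon
    simp at hcon

theorem length_ext [Nontrivial A] (w : List A) : 2 * w.length ≤ (ext D.F w).length := by
  induction w with
  | nil => simp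
  | cons a w ih =>
    rw [ext_cons, List.length_append, List.length_cons]
    have := D.two_le_length a
    omega

theorem psi_length [Nontrivial A] (w : List A) : 2 * w.length ≤ (D.Ψ w).length := by
  have := D.length_ext w
  unfold Ψ
  rw [List.length_append]
  omega

theorem psi_iter_length [Nontrivial A] (w : List A) (hw : w ≠ []) (k : ℕ) :
    k + 1 ≤ (D.Ψ^[k] w).length := by
  induction k with
  | zero =>
    have := List.length_pos_of_ne_nil hw
    rw [Function.iterate_zero_apply]
    omega
  | succ k ih =>
    rw [Function.iterate_succ_apply']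
    have := D.psi_length (D.Ψ^[k] w)
    omega

theorem psi_iter_large [Nontrivial A] (w : List A) (hw : w ≠ [] ∨ D.c ≠ []) (N : ℕ) :
    ∃ J, ∀ k, J ≤ k → N ≤ (D.Ψ^[k] w).length := by
  refine ⟨N + 1, fun k hk => ?_⟩
  obtain ⟨k', rfl⟩ : ∃ k', k = k' + 1 := ⟨k - 1, by omega⟩
  rw [Function.iterate_succ_apply]
  have h1 : D.Ψ w ≠ [] := by
    intro hcon
    rw [D.psi_eq] at hcon
    rcases hw with hw | hw
    · cases w with
      | nil => exact hw rfl
      | cons a w =>
        obtain ⟨t, ht⟩ := D.hG a
        rw [ext_cons, ht] at hcon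
        simp at hcon
    · simp [hw] at hcon
  have := D.psi_iter_length (D.Ψ w) h1 k'
  omega

theorem mem_psi (w : List A) (hw : w ≠ []) (b : A) : b ∈ D.Ψ w := by
  cases w with
  | nil => exact absurd rfl hw
  | cons a w =>
    unfold Ψ
    rw [ext_cons]
    simp [D.hall a b]

theorem length_eq (a : A) : (D.F a).length = (D.G a).length := by
  have := congrArg List.length (D.hc a)
  simp at this
  omega

theorem ext_reverse (F : A → List A) (w : List A) :
    (ext F w).reverse = ext (fun a => (F a).reverse) w.reverse := by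
  induction w with
  | nil => simp
  | cons a w ih => simp [ih]

theorem eq_of_ext_eq {F G : A → List A} (hl : ∀ a, (F a).length = (G a).length) (w : List A)
    (h : ext F w = ext G w) : ∀ a ∈ w, F a = G a := by
  induction w with
  | nil => simp
  | cons a w ih =>
    rw [ext_cons, ext_cons] at h
    have h1 := List.append_inj h (hl a)
    intro b hb
    rcases List.mem_cons.mp hb with rfl | hb
    · exact h1.1
    · exact ih h1.2 b hb

theorem commute {W : List A} (hall : ∀ b, b ∈ W) (h1 : W.reverse = W)
    (h2 : (D.Ψ W).reverse = D.Ψ W) (v : List A) : (D.Ψ v).reverse = D.Ψ v.reverse := by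
  have h3 : D.c.reverse ++ ext (fun a => (D.F a).reverse) W = D.c ++ ext D.G W := by
    rw [← D.psi_eq, ← h2]
    conv_rhs => unfold Ψ
    rw [List.reverse_append, ext_reverse, h1]
  have h4 := List.append_inj h3 (by simp)
  have h5 := eq_of_ext_eq (fun a => by rw [List.length_reverse, D.length_eq]) W h4.2
  have h6 : (fun a => (D.F a).reverse) = D.G := by
    funext a
    exact h5 a (hall a)
  rw [D.psi_eq v.reverse]
  conv_lhs => unfold Ψ
  rw [List.reverse_append, ext_reverse, h6, h4.1]

theorem ext_G_injective : Function.Injective (ext D.G) := by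
  intro v
  induction v with
  | nil =>
    intro w h
    cases w with
    | nil => rfl
    | cons b w =>
      obtain ⟨t, ht⟩ := D.hG b
      rw [ext_cons, ht] at h
      simp at h
  | cons a v ih =>
    intro w h
    cases w with
    | nil =>
      obtain ⟨t, ht⟩ := D.hG a
      simp only [ext_cons, ht] at h
      simp at h
    | cons b w =>
      have h' : ext D.G (a :: v) = ext D.G (b :: w) := h
      obtain ⟨s, hs⟩ := D.hG a
      obtain ⟨t, ht⟩ := D.hG b
      have hab : a = b := by
        rw [ext_cons, ext_cons, hs, ht] at h'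
        exact (List.cons_eq_cons.mp h').1
      subst hab
      rw [ext_cons, ext_cons] at h'
      rw [ih (List.append_cancel_left h')]

theorem psi_injective : Function.Injective D.Ψ := by
  intro v w h
  rw [D.psi_eq, D.psi_eq] at h
  exact D.ext_G_injective (List.append_cancel_left h)

theorem nonpal {w : List A} (hw : w.reverse ≠ w) (J : ℕ) :
    ∃ k, J ≤ k ∧ (D.Ψ^[k] w).reverse ≠ D.Ψ^[k] w := by
  by_contra hcon
  push Not at hcon
  have hne : w ≠ [] := by rintro rfl; exact hw rfl
  have hne' : ∀ k, D.Ψ^[k] w ≠ [] := by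
    intro k
    induction k with
    | zero => exact hne
    | succ k ih =>
      rw [Function.iterate_succ_apply', D.psi_eq]
      intro h
      cases h' : D.Ψ^[k] w with
      | nil => exact ih h'
      | cons a t =>
        obtain ⟨s, hs⟩ := D.hG a
        rw [h', ext_cons, hs] at h
        simp at h
  have hmem : ∀ b, b ∈ D.Ψ^[J + 1] w := by
    intro b
    rw [Function.iterate_succ_apply']
    exact D.mem_psi _ (hne' J) b
  have h1 := hcon (J + 1) (by omega)
  have h2 := hcon (J + 2) (by omega)
  rw [Function.iterate_succ_apply'] at h2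
  have h3 := D.commute hmem h1 h2
  have h4 : ∀ k v, (D.Ψ^[k] v).reverse = D.Ψ^[k] v.reverse := by
    intro k
    induction k with
    | zero => intro v; rfl
    | succ k ih =>
      intro v
      rw [Function.iterate_succ_apply', Function.iterate_succ_apply', h3, ih]
  rw [h4] at h1
  exact hw (D.psi_injective.iterate _ h1)

theorem le_of_ex [Nontrivial A] {K : ℕ} (hEX : ∀ m, K ≤ m → EX u m) (w : List A)
    (hw : w ≠ [] ∨ D.c ≠ []) : LE u w := by
  classical
  intro f hf
  obtain ⟨J, hJ⟩ := D.psi_iter_large w hw K
  obtain ⟨k, hk1, hk2⟩ : ∃ k, K ≤ (D.Ψ^[k] w).length ∧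
      (w.reverse ≠ w → (D.Ψ^[k] w).reverse ≠ D.Ψ^[k] w) := by
    by_cases hp : w.reverse = w
    · exact ⟨J, hJ J le_rfl, fun h => absurd hp h⟩
    · obtain ⟨k, hk, hk'⟩ := D.nonpal hp J
      exact ⟨k, hJ k hk, fun _ => hk'⟩
  obtain ⟨W, hW⟩ : ∃ W, W = D.Ψ^[k] w := ⟨_, rfl⟩
  have hfac : ∀ x y, Fac u (x :: (w ++ [y])) → Fac u (x :: (W ++ [y])) := by
    intro x y h
    rw [hW]
    exact D.psi_fac_iter h k
  rw [← hW] at hk1 hk2
  obtain ⟨g, hg⟩ : ∃ g : List A → ℝ, g = fun z =>
    if z = z.headD (u 0) :: (W ++ [z.getLastD (u 0)]) then f (z.headD (u 0)) (z.getLastD (u 0))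
    else 0 := ⟨_, rfl⟩
  have hgv : ∀ (x : A) (V : List A) (y : A), V.length = W.length →
      g (x :: (V ++ [y])) = if V = W then f x y else 0 := by
    intro x V y hV
    simp only [hg]
    have h1 : (x :: (V ++ [y])).headD (u 0) = x := rfl
    have h2 : (x :: (V ++ [y])).getLastD (u 0) = y := by
      rw [← List.cons_append, List.getLastD_concat]
    rw [h1, h2]
    by_cases h3 : V = W
    · rw [if_pos (by rw [h3]), if_pos h3]
    · rw [if_neg, if_neg h3]
      intro h4
      exact h3 (List.append_inj_left (List.cons_eq_cons.mp h4).2 hV)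
  obtain ⟨h, _, h2⟩ := hEX (W.length + 1) (by omega) (fun z => g z - g z.reverse) (by
    intro z
    simp only [List.reverse_reverse]
    ring)
  have key : ∀ x y, Fac u (x :: (w ++ [y])) →
      (f x y - if W.reverse = W then f y x else 0) = h (W ++ [y]) - h (x :: W) := by
    intro x y hxy
    obtain ⟨i, hi⟩ := hfac x y hxy
    have hlen : (x :: (W ++ [y])).length = W.length + 1 + 1 := by simp
    rw [hlen] at hi
    have h3 := h2 i
    have h4 : seg u i (W.length + 1) = x :: W := by
      have h5 := hi
      rw [seg_succ', ← List.cons_append] at h5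
      exact (List.append_inj_left h5 (by simp)).symm
    have h5 : seg u (i + 1) (W.length + 1) = W ++ [y] := by
      have h6 := hi
      rw [seg_succ] at h6
      exact (List.cons_eq_cons.mp h6).2.symm
    rw [← hi, h4, h5, hgv x W y rfl] at h3
    have h6 : (x :: (W ++ [y])).reverse = y :: (W.reverse ++ [x]) := by simp
    rw [h6, hgv y W.reverse x (by simp)] at h3
    simpa using h3
  by_cases hp : W.reverse = W
  · have hwp : w.reverse = w := by
      by_contra hcon
      exact hk2 hcon hp
    refine ⟨fun x => h (x :: W) / 2, fun y => h (W ++ [y]) / 2, fun x y hxy => ?_⟩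
    have h3 := key x y hxy
    rw [if_pos hp, hf hwp y x] at h3
    linarith
  · refine ⟨fun x => h (x :: W), fun y => h (W ++ [y]), fun x y hxy => ?_⟩
    have h3 := key x y hxy
    rw [if_neg hp] at h3
    linarith

/-! ### level one -/

theorem iter_ext (F : A → List A) (k : ℕ) (w : List A) :
    (ext F)^[k] w = ext (fun a => (ext F)^[k] [a]) w := by
  have h1 : ∀ k v w, (ext F)^[k] (v ++ w) = (ext F)^[k] v ++ (ext F)^[k] w := by
    intro k
    induction k with
    | zero => intro v w; rfl
    | succ k ih =>
      intro v w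
      simp only [Function.iterate_succ_apply', ih, ext_append]
  have h2 : ∀ k, (ext F)^[k] [] = [] := by
    intro k
    induction k with
    | zero => rfl
    | succ k ih => rw [Function.iterate_succ_apply', ih, ext_nil]
  induction w with
  | nil => rw [h2, ext_nil]
  | cons a w ih =>
    rw [ext_cons, ← ih, ← h1]
    rfl

theorem ex_one_stationary [Nontrivial A] {K : ℕ} (hK : UPS u K) (hcr : CR u)
    (hc : D.c = []) : EX u 1 := by
  intro f hf
  have hFG : D.F = D.G := by
    funext a
    have := D.hc a
    rwa [hc, List.append_nil, List.nil_append] at this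
  have hΨ : D.Ψ = ext D.F := by
    funext w
    unfold Ψ
    rw [hc, List.append_nil]
  obtain ⟨θ, hθ⟩ : ∃ θ : A → List A, θ = fun a => (ext D.F)^[K] [a] := ⟨_, rfl⟩
  have hθL : ∀ w, Fac u w → Fac u (ext θ w) := by
    intro w hw
    rw [hθ, ← iter_ext]
    have : ∀ k, Fac u ((ext D.F)^[k] w) := by
      intro k
      induction k with
      | zero => exact hw
      | succ k ih =>
        rw [Function.iterate_succ_apply']
        have := D.hL _ ih
        rwa [hc, List.append_nil] at this
    exact this K
  have hθ1 : ∀ a, ∃ t, θ a = t ++ [a] := by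
    intro a
    rw [hθ]
    show ∃ t, (ext D.F)^[K] [a] = t ++ [a]
    have : ∀ k, ∃ t, (ext D.F)^[k] [a] = t ++ [a] := by
      intro k
      induction k with
      | zero => exact ⟨[], rfl⟩
      | succ k ih =>
        obtain ⟨t, ht⟩ := ih
        obtain ⟨s, hs⟩ := D.hF a
        rw [Function.iterate_succ_apply', ht, ext_append, ext_singleton, hs]
        exact ⟨_, (List.append_assoc _ _ _).symm⟩
    exact this K
  have hθ2 : ∀ a, ∃ t, θ a = a :: t := by
    intro a
    rw [hθ]
    show ∃ t, (ext D.F)^[K] [a] = a :: t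
    have : ∀ k, ∃ t, (ext D.F)^[k] [a] = a :: t := by
      intro k
      induction k with
      | zero => exact ⟨[], rfl⟩
      | succ k ih =>
        obtain ⟨t, ht⟩ := ih
        obtain ⟨s, hs⟩ := D.hG a
        rw [Function.iterate_succ_apply', ht, ext_cons, hFG, hs]
        exact ⟨_, rfl⟩
    exact this K
  have hθlen : ∀ a, K + 1 ≤ (θ a).length := by
    intro a
    have := D.psi_iter_length [a] (by simp) K
    rw [hΨ] at this
    rw [hθ]
    exact this
  -- the identity for return paths
  have hstar : ∀ i n, u (i + n) = u i →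
      ((seg u i (n + 1)).map (fun a => ps f (θ a))).sum + ps f (seg u i (n + 1)) =
        ps f (θ (u i)) := by
    intro i n hin
    rw [← ps_ext f θ hθ1 hθ2]
    obtain ⟨a, ha⟩ := hθL _ (Fac.seg u i (n + 1))
    obtain ⟨d, hd⟩ : ∃ d, d = (ext θ (seg u i n)).length := ⟨_, rfl⟩
    obtain ⟨m, hm⟩ : ∃ m, m = (θ (u i)).length := ⟨_, rfl⟩
    have hlen1 : (ext θ (seg u i (n + 1))).length = d + m := by
      rw [seg_succ', ext_append, ext_singleton, hin, List.length_append, hd, hm]
    rw [hlen1] at ha
    have he1 : seg u (a + d) m = θ (u i) := by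
      rw [seg_succ', ext_append, ext_singleton, hin, seg_add] at ha
      exact (List.append_inj_right ha (by simp [hd])).symm
    have he2 : seg u a m = θ (u i) := by
      have h1 : seg u a (d + m) = seg u a m ++ seg u (a + m) d := by
        rw [Nat.add_comm, seg_add]
      rw [seg_succ, ext_cons, h1] at ha
      exact (List.append_inj_left ha (by simp [hm])).symm
    have hKm : K + 1 ≤ m := by rw [hm]; exact hθlen _
    have h1 := sum_eq_of_window hK (m := m) (by omega) (by omega) f hf a (a + d)
      (he2.trans he1.symm)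
    rw [Finset.sum_range_add] at h1
    obtain ⟨m', rfl⟩ : ∃ m', m = m' + 1 := ⟨m - 1, by omega⟩
    rw [ha, ← Nat.add_assoc, ps_seg, Finset.sum_range_add, ← he1, ps_seg]
    have h2 : ∑ x ∈ Finset.range d, f (seg u (a + x) 2) = 0 := by linarith
    rw [h2, zero_add]
    apply Finset.sum_congr rfl
    intro k _
    rw [Nat.add_assoc]
  have hzero : ∀ i n, u (i + n) = u i → ps f (seg u i (n + 1)) = 0 := by
    intro i n hin
    obtain ⟨j, hj⟩ := hcr i (n + 1)
    have h1 : u j = u (i + n) := by
      have := hj.symm
      rw [seg_eq_reverse_iff] at this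
      have h2 := this 0 (by omega)
      simpa using h2
    have h2 : u (j + n) = u i := by
      have := hj.symm
      rw [seg_eq_reverse_iff] at this
      have h2 := this n (by omega)
      simpa using h2
    have h3 := hstar i n hin
    have h4 := hstar j n (by rw [h2, h1, hin])
    rw [← hj, ps_reverse f hf, List.map_reverse, List.sum_reverse, h1, hin] at h4
    linarith
  apply exact_of_const
  have key : ∀ i j, i ≤ j → Cl (seg u j 1) (seg u i 1) →
      ∑ k ∈ Finset.range i, f (seg u k (1 + 1)) = ∑ k ∈ Finset.range j, f (seg u k (1 + 1)) := by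
    intro i j hij hcl
    have h1 : u j = u i := by
      rw [seg_one, seg_one] at hcl
      rcases hcl with h | h
      · simpa using h
      · simpa using h
    obtain ⟨n, rfl⟩ : ∃ n, j = i + n := ⟨j - i, by omega⟩
    have h2 := hzero i n h1
    rw [ps_seg] at h2
    rw [Finset.sum_range_add]
    linarith
  intro i j hcl
  rcases Nat.le_total i j with h | h
  · exact key i j h hcl
  · exact (key j i h hcl.symm).symm

include D in
theorem upa [Nontrivial A] {K : ℕ} (hK : UPS u K) (hcr : CR u) : UPA u := by
  have hEX : ∀ m, K ≤ m → EX u m := fun m hm => ex_large hK hm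
  have h1 : EX u 1 := by
    by_cases hc : D.c = []
    · exact D.ex_one_stationary hK hcr hc
    · exact ex_step hcr (ex_zero u) (fun w _ => D.le_of_ex hEX w (Or.inr hc))
  apply upa_of_ex
  intro m hm
  obtain ⟨m', rfl⟩ : ∃ m', m = m' + 1 := ⟨m - 1, by omega⟩
  clear hm
  induction m' with
  | zero => exact h1
  | succ m ih =>
    apply ex_step hcr ih
    intro w hw
    apply D.le_of_ex hEX w
    left
    rintro rfl
    simp at hw

end Dat

end Pool.Agent.R113.ZD
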