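import Pool.Agent.R113.ZD.Dat

/-!
# Fixed points of primitive marked morphisms
-/

set_option autoImplicit false

namespace Pool.Agent.R113.ZD

variable {A : Type*}

/-- `φ` is primitive -/
def Primitive (φ : A → List A) : Prop := ∃ k : ℕ, ∀ a b : A, b ∈ (ext φ)^[k] [a]

/-- the infinite word `u` is a fixed point of `φ` -/
def IsFixedPoint (φ : A → List A) (u : ℕ → A) : Prop :=
  (∀ n, ext φ (seg u 0 n) = seg u 0 (ext φ (seg u 0 n)).length) ∧
    ∀ N, ∃ n, N ≤ (ext φ (seg u 0 n)).length

/-- conjugate morphisms -/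
def Conj (φ ψ : A → List A) : Prop :=
  ∃ w : List A, (∀ a, φ a ++ w = w ++ ψ a) ∨ (∀ a, w ++ φ a = ψ a ++ w)

/-- marked morphisms -/
def Marked (φ : A → List A) : Prop :=
  ∃ φ₁ φ₂ : A → List A, Conj φ φ₁ ∧ Conj φ φ₂ ∧
    {x | ∃ a, (φ₁ a).getLast? = some x} = Set.univ ∧
    {x | ∃ a, (φ₂ a).head? = some x} = Set.univ

theorem perm_of_surj [Finite A] (g : A → Option A) (h : ∀ x, ∃ a, g a = some x) :
    ∃ π : Equiv.Perm A, ∀ a, g a = some (π a) := by
  choose s hs using h
  have hinj : Function.Injective s := by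
    intro x y hxy
    have h1 := hs x
    rw [hxy, hs y] at h1
    exact (Option.some.inj h1).symm
  have hbij : Function.Bijective s := Finite.injective_iff_bijective.mp hinj
  refine ⟨(Equiv.ofBijective s hbij).symm, fun a => ?_⟩
  have h1 := hs ((Equiv.ofBijective s hbij).symm a)
  have h2 : s ((Equiv.ofBijective s hbij).symm a) = a :=
    (Equiv.ofBijective s hbij).apply_symm_apply a
  rwa [h2] at h1

theorem conj_ext {f g : A → List A} {c : List A} (h : ∀ a, f a ++ c = c ++ g a) (w : List A) :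
    ext f w ++ c = c ++ ext g w := by
  induction w with
  | nil => simp
  | cons a w ih =>
    rw [ext_cons, ext_cons, List.append_assoc, ih, ← List.append_assoc, h, List.append_assoc]

theorem ext_ext (f g : A → List A) (w : List A) : ext f (ext g w) = ext (fun a => ext f (g a)) w := by
  induction w with
  | nil => rfl
  | cons a w ih => rw [ext_cons, ext_append, ih, ext_cons]

theorem mem_ext {f : A → List A} {w : List A} {b : A} : b ∈ ext f w ↔ ∃ a ∈ w, b ∈ f a := by
  simp [ext]

theorem ext_iter_nil (f : A → List A) (k : ℕ) : (ext f)^[k] [] = [] := by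
  rw [Dat.iter_ext]; rfl

theorem ext_iter_append (f : A → List A) (k : ℕ) (v w : List A) :
    (ext f)^[k] (v ++ w) = (ext f)^[k] v ++ (ext f)^[k] w := by
  rw [Dat.iter_ext, Dat.iter_ext f k v, Dat.iter_ext f k w, ext_append]

theorem length_le_ext {f : A → List A} (hf : ∀ a, f a ≠ []) (w : List A) :
    w.length ≤ (ext f w).length := by
  induction w with
  | nil => simp
  | cons a w ih =>
    rw [ext_cons, List.length_append, List.length_cons]
    have := List.length_pos_of_ne_nil (hf a)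
    omega

theorem length_le_ext_iter {f : A → List A} (hf : ∀ a, f a ≠ []) (k : ℕ) (w : List A) :
    w.length ≤ ((ext f)^[k] w).length := by
  induction k with
  | zero => exact le_rfl
  | succ k ih =>
    rw [Function.iterate_succ_apply']
    exact ih.trans (length_le_ext hf _)

theorem two_le_of_all [Nontrivial A] {l : List A} (h : ∀ b, b ∈ l) : 2 ≤ l.length := by
  obtain ⟨x, y, hxy⟩ := exists_pair_ne A
  have hx := h x
  have hy := h y
  by_contra hcon
  rcases l with _ | ⟨p, _ | ⟨q, t⟩⟩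
  · simp at hx
  · simp only [List.mem_singleton] at hx hy
    exact hxy (hx.trans hy.symm)
  · simp at hcon

theorem ext_iter_growth [Nontrivial A] {f : A → List A} (hf : ∀ a b, b ∈ f a) (k : ℕ) (a : A) :
    k + 1 ≤ ((ext f)^[k] [a]).length := by
  have h1 : ∀ w : List A, 2 * w.length ≤ (ext f w).length := by
    intro w
    induction w with
    | nil => simp
    | cons a w ih =>
      rw [ext_cons, List.length_append, List.length_cons]
      have := two_le_of_all (hf a)
      omega
  induction k with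
  | zero => exact le_rfl
  | succ k ih =>
    rw [Function.iterate_succ_apply']
    have := h1 ((ext f)^[k] [a])
    omega

theorem mid_seg {u : ℕ → A} {n : ℕ} {s w t : List A} (h : s ++ w ++ t = seg u 0 n) :
    w = seg u s.length w.length := by
  have hl : s.length + w.length + t.length = n := by
    have := congrArg List.length h
    simpa [Nat.add_assoc] using this
  have h1 : seg u 0 n = seg u 0 s.length ++ seg u (0 + s.length) w.length ++
      seg u (0 + (s.length + w.length)) t.length := by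
    rw [← seg_add, ← seg_add, hl]
  rw [h1] at h
  have h2 := List.append_inj_left h (by simp)
  have h3 := List.append_inj_right h2 (by simp)
  rwa [Nat.zero_add] at h3

theorem fixed_iter {φ : A → List A} {u : ℕ → A}
    (hu : ∀ n, ext φ (seg u 0 n) = seg u 0 (ext φ (seg u 0 n)).length) (k n : ℕ) :
    (ext φ)^[k] (seg u 0 n) = seg u 0 ((ext φ)^[k] (seg u 0 n)).length := by
  induction k with
  | zero => simp
  | succ k ih =>
    rw [Function.iterate_succ_apply', ih]
    exact hu _

theorem rec_of_all [Nontrivial A] {Θ : A → List A} (hΘ : ∀ a b, b ∈ Θ a) {u : ℕ → A}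
    (hu : ∀ n, ext Θ (seg u 0 n) = seg u 0 (ext Θ (seg u 0 n)).length) : Rec u := by
  intro i n N
  have hne : ∀ a, Θ a ≠ [] := by
    intro a h
    have := hΘ a a
    rw [h] at this
    simp at this
  obtain ⟨q, hq⟩ : ∃ q, q = i + n := ⟨_, rfl⟩
  obtain ⟨X, hX⟩ : ∃ X, X = (ext Θ)^[q] [u 0] := ⟨_, rfl⟩
  have hX0 : X = seg u 0 X.length := by
    have := fixed_iter hu q 1
    rw [seg_one, ← hX] at this
    exact this
  have hXl : q + 1 ≤ X.length := by rw [hX]; exact ext_iter_growth hΘ q (u 0)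
  have h1 := fixed_iter hu (q + 1) (N + 1)
  obtain ⟨s, t, hst⟩ := List.append_of_mem (hΘ (u N) (u 0))
  have h2 : (ext Θ)^[q + 1] (seg u 0 (N + 1)) =
      ((ext Θ)^[q + 1] (seg u 0 N) ++ (ext Θ)^[q] s) ++ X ++ (ext Θ)^[q] t := by
    rw [seg_succ', ext_iter_append, Function.iterate_succ_apply (ext Θ) q [u (0 + N)],
      Nat.zero_add, ext_singleton, hst, ext_iter_append, ← List.singleton_append,
      ext_iter_append, ← hX]
    simp only [List.append_assoc]
  rw [h2] at h1
  have h3 := mid_seg h1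
  refine ⟨((ext Θ)^[q + 1] (seg u 0 N) ++ (ext Θ)^[q] s).length + i, ?_, ?_⟩
  · have := length_le_ext_iter hne (q + 1) (seg u 0 N)
    rw [seg_length] at this
    rw [List.length_append]
    omega
  · have h4 : seg u ((ext Θ)^[q + 1] (seg u 0 N) ++ (ext Θ)^[q] s).length X.length =
        seg u 0 X.length := by
      rw [← h3, ← hX0]
    rw [seg_eq_iff] at h4 ⊢
    intro k hk
    have := h4 (i + k) (by omega)
    rw [Nat.add_assoc, this, Nat.zero_add]

theorem conj_left [Nontrivial A] {φ φ₁ : A → List A} (h : Conj φ φ₁) (π : Equiv.Perm A)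
    (hπ : ∀ a, ∃ t, φ₁ a = t ++ [π a]) : ∃ w, ∀ a, φ₁ a ++ w = w ++ φ a := by
  obtain ⟨w, h | h⟩ := h
  · rcases List.eq_nil_or_concat w with rfl | ⟨w', x, rfl⟩
    · exact ⟨[], fun a => by simpa using (h a).symm⟩
    · exfalso
      obtain ⟨y, z, hyz⟩ := exists_pair_ne A
      have key : ∀ a, π a = x := by
        intro a
        obtain ⟨t, ht⟩ := hπ a
        have h1 := h a
        rw [ht] at h1
        have h2 : (φ a ++ w') ++ [x] = (w' ++ [x] ++ t) ++ [π a] := by
          simpa using h1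
        exact (List.cons_eq_cons.mp (List.append_inj' h2 rfl).2).1.symm
      exact hyz (π.injective ((key y).trans (key z).symm))
  · exact ⟨w, fun a => (h a).symm⟩

theorem conj_right [Nontrivial A] {φ φ₂ : A → List A} (h : Conj φ φ₂) (π : Equiv.Perm A)
    (hπ : ∀ a, ∃ t, φ₂ a = π a :: t) : ∃ w, ∀ a, φ a ++ w = w ++ φ₂ a := by
  obtain ⟨w, h | h⟩ := h
  · exact ⟨w, h⟩
  · rcases w with _ | ⟨x, w'⟩
    · exact ⟨[], fun a => by simpa using h a⟩
    · exfalso
      obtain ⟨y, z, hyz⟩ := exists_pair_ne A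
      have key : ∀ a, π a = x := by
        intro a
        obtain ⟨t, ht⟩ := hπ a
        have h1 := h a
        rw [ht, List.cons_append, List.cons_append] at h1
        exact (List.cons_eq_cons.mp h1).1.symm
      exact hyz (π.injective ((key y).trans (key z).symm))

/-- powers of the extension map -/
theorem power_data {φ φ₁ φ₂ : A → List A} {w₁ w₂ : List A}
    (h1 : ∀ a, φ₁ a ++ w₁ = w₁ ++ φ a) (h2 : ∀ a, φ a ++ w₂ = w₂ ++ φ₂ a)
    (π₁ π₂ : Equiv.Perm A) (hπ₁ : ∀ a, ∃ t, φ₁ a = t ++ [π₁ a])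
    (hπ₂ : ∀ a, ∃ t, φ₂ a = π₂ a :: t) (k : ℕ) :
    ∃ (F G : A → List A) (c : List A),
      (∀ w, (fun w => ext φ₁ w ++ (w₁ ++ w₂))^[k] w = ext F w ++ c) ∧
      (∀ w, (fun w => ext φ₁ w ++ (w₁ ++ w₂))^[k] w = c ++ ext G w) ∧
      (∀ a, ∃ t, F a = t ++ [(π₁ ^ k) a]) ∧
      (∀ a, ∃ t, G a = (π₂ ^ k) a :: t) ∧
      (∀ a b, b ∈ (ext φ)^[k] [a] → b ∈ F a) := by
  have hmem : ∀ y b, b ∈ φ y → b ∈ φ₁ y := by
    intro y b hb
    have h3 : (φ₁ y ++ w₁).Perm (φ y ++ w₁) := by
      rw [h1 y]; exact List.perm_append_comm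
    exact (((List.perm_append_right_iff w₁).mp h3).mem_iff).mpr hb
  have hc : ∀ a, φ₁ a ++ (w₁ ++ w₂) = (w₁ ++ w₂) ++ φ₂ a := by
    intro a
    rw [← List.append_assoc, h1, List.append_assoc, h2, List.append_assoc]
  induction k with
  | zero =>
    refine ⟨fun a => [a], fun a => [a], [], ?_, ?_, ?_, ?_, ?_⟩
    · intro w; simp [ext]
    · intro w; simp [ext]
    · intro a; exact ⟨[], rfl⟩
    · intro a; exact ⟨[], rfl⟩
    · intro a b h; exact h
  | succ k ih =>
    obtain ⟨F, G, c, hF, hG, hF1, hG1, hmF⟩ := ih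
    refine ⟨fun a => ext φ₁ (F a), fun a => ext φ₂ (G a), ext φ₁ c ++ (w₁ ++ w₂),
      ?_, ?_, ?_, ?_, ?_⟩
    · intro w
      rw [Function.iterate_succ_apply', hF]
      show ext φ₁ (ext F w ++ c) ++ (w₁ ++ w₂) = _
      rw [ext_append, ext_ext, List.append_assoc]
    · intro w
      rw [Function.iterate_succ_apply', hG]
      show ext φ₁ (c ++ ext G w) ++ (w₁ ++ w₂) = _
      rw [conj_ext hc, conj_ext hc, ext_append, ext_ext]
      simp only [List.append_assoc]
    · intro a
      obtain ⟨t, ht⟩ := hF1 a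
      obtain ⟨t', ht'⟩ := hπ₁ ((π₁ ^ k) a)
      refine ⟨ext φ₁ t ++ t', ?_⟩
      show ext φ₁ (F a) = _
      rw [ht, ext_append, ext_singleton, ht', pow_succ', List.append_assoc]
      rfl
    · intro a
      obtain ⟨t, ht⟩ := hG1 a
      obtain ⟨t', ht'⟩ := hπ₂ ((π₂ ^ k) a)
      refine ⟨t' ++ ext φ₂ t, ?_⟩
      show ext φ₂ (G a) = _
      rw [ht, ext_cons, ht', pow_succ']
      rfl
    · intro a b hb
      rw [Function.iterate_succ_apply'] at hb
      obtain ⟨y, hy, hb⟩ := mem_ext.mp hb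
      exact mem_ext.mpr ⟨y, hmF a y hy, hmem y b hb⟩

/-- the factors are closed under the extension map -/
theorem fac_closure {φ φ₁ φ₂ : A → List A} {w₁ w₂ : List A}
    (h1 : ∀ a, φ₁ a ++ w₁ = w₁ ++ φ a) (h2 : ∀ a, φ a ++ w₂ = w₂ ++ φ₂ a) {u : ℕ → A}
    (hne : ∀ a, φ a ≠ []) (hu : ∀ n, ext φ (seg u 0 n) = seg u 0 (ext φ (seg u 0 n)).length)
    (hr : Rec u) {v : List A} (hv : Fac u v) : Fac u (ext φ₁ v ++ (w₁ ++ w₂)) := by
  obtain ⟨i, hi⟩ := hv
  obtain ⟨j, hj, hj'⟩ := hr i v.length w₁.length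
  rw [← hi] at hj'
  have h3 : seg u 0 (j + v.length + w₂.length) =
      seg u 0 j ++ v ++ seg u (j + v.length) w₂.length := by
    rw [seg_add, seg_add, Nat.zero_add, Nat.zero_add, hj']
  have h4 := hu (j + v.length + w₂.length)
  have h5 : Fac u (ext φ (seg u 0 (j + v.length + w₂.length))) := by
    rw [h4]; exact Fac.seg u 0 _
  rw [h3, ext_append, ext_append] at h5
  have h6 : w₁ <:+ ext φ (seg u 0 j) := by
    have h7 := conj_ext h1 (seg u 0 j)
    refine List.suffix_of_suffix_length_le (l₃ := w₁ ++ ext φ (seg u 0 j)) ⟨_, h7⟩ ⟨_, rfl⟩ ?_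
    have := length_le_ext hne (seg u 0 j)
    rw [seg_length] at this
    omega
  have h8 : w₂ <+: ext φ (seg u (j + v.length) w₂.length) := by
    have h7 := conj_ext h2 (seg u (j + v.length) w₂.length)
    refine List.prefix_of_prefix_length_le (l₃ := w₂ ++ ext φ₂ (seg u (j + v.length) w₂.length))
      ⟨_, rfl⟩ ⟨_, h7⟩ ?_
    have := length_le_ext hne (seg u (j + v.length) w₂.length)
    rwa [seg_length] at this
  obtain ⟨s, hs⟩ := h6
  obtain ⟨t, ht⟩ := h8
  refine h5.sub ⟨s, t, ?_⟩
  have h9 : ext φ₁ v ++ (w₁ ++ w₂) = w₁ ++ ext φ v ++ w₂ := by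
    rw [← List.append_assoc, conj_ext h1]
  rw [← hs, ← ht, h9]
  simp only [List.append_assoc]

theorem zero_defect [Finite A] (φ : A → List A) (u : ℕ → A) (hp : Primitive φ) (hm : Marked φ)
    (hu : IsFixedPoint φ u) (hD : defectInf u < ⊤) : defectInf u = 0 := by
  rcases subsingleton_or_nontrivial A with hA | hA
  · exact defect_zero_of_upa (upa_of_subsingleton u)
  obtain ⟨K, hK⟩ := exists_ups u hD
  obtain ⟨k, hk⟩ := hp
  have hk0 : k ≠ 0 := by
    rintro rfl
    obtain ⟨x, y, hxy⟩ := exists_pair_ne A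
    have := hk x y
    simp only [Function.iterate_zero, id, List.mem_singleton] at this
    exact hxy this.symm
  have hne : ∀ a, φ a ≠ [] := by
    intro a h
    obtain ⟨k', rfl⟩ := Nat.exists_eq_succ_of_ne_zero hk0
    have := hk a a
    rw [Function.iterate_succ_apply, ext_singleton, h, ext_iter_nil] at this
    simp at this
  obtain ⟨Θ, hΘ⟩ : ∃ Θ : A → List A, Θ = fun a => (ext φ)^[k] [a] := ⟨_, rfl⟩
  have hΘe : (ext φ)^[k] = ext Θ := by
    funext w
    rw [Dat.iter_ext, hΘ]
  have hΘall : ∀ a b, b ∈ Θ a := by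
    intro a b
    rw [hΘ]
    exact hk a b
  have hr : Rec u := by
    apply rec_of_all hΘall
    intro n
    rw [← hΘe]
    exact fixed_iter hu.1 k n
  have hcr : CR u := cr_of_ups hK hr
  obtain ⟨φ₁, φ₂, hc1, hc2, hl, hf⟩ := hm
  obtain ⟨π₁, hπ₁⟩ := perm_of_surj (fun a => (φ₁ a).getLast?) (by
    intro x
    have : x ∈ {x | ∃ a, (φ₁ a).getLast? = some x} := by rw [hl]; trivial
    exact this)
  obtain ⟨π₂, hπ₂⟩ := perm_of_surj (fun a => (φ₂ a).head?) (by
    intro x
    have : x ∈ {x | ∃ a, (φ₂ a).head? = some x} := by rw [hf]; trivial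
    exact this)
  have hπ₁' : ∀ a, ∃ t, φ₁ a = t ++ [π₁ a] := by
    intro a
    have := hπ₁ a
    rw [List.getLast?_eq_some_iff] at this
    exact this
  have hπ₂' : ∀ a, ∃ t, φ₂ a = π₂ a :: t := by
    intro a
    have := hπ₂ a
    rw [List.head?_eq_some_iff] at this
    exact this
  obtain ⟨w₁, hw₁⟩ := conj_left hc1 π₁ hπ₁'
  obtain ⟨w₂, hw₂⟩ := conj_right hc2 π₂ hπ₂'
  obtain ⟨q, hq⟩ : ∃ q, Nat.card (Equiv.Perm A) = q + 1 := by
    have : 0 < Nat.card (Equiv.Perm A) := Nat.card_pos
    exact ⟨Nat.card (Equiv.Perm A) - 1, by omega⟩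
  obtain ⟨F, G, c, hF, hG, hF1, hG1, hmF⟩ :=
    power_data hw₁ hw₂ π₁ π₂ hπ₁' hπ₂' (k * (q + 1))
  have hpow : ∀ π : Equiv.Perm A, π ^ (k * (q + 1)) = 1 := by
    intro π
    rw [mul_comm, pow_mul, ← hq, pow_card_eq_one', one_pow]
  have hall : ∀ a b, b ∈ (ext φ)^[k * (q + 1)] [a] := by
    intro a b
    rw [Function.iterate_mul, hΘe, Function.iterate_succ_apply']
    have h1 := ext_iter_growth hΘall q a
    cases h : (ext Θ)^[q] [a] with
    | nil => rw [h] at h1; simp at h1
    | cons y t => exact mem_ext.mpr ⟨y, by simp, hΘall y b⟩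
  let D : Dat u :=
    { F := F
      G := G
      c := c
      hc := by
        intro a
        have h1 := hF [a]
        rw [hG, ext_singleton, ext_singleton] at h1
        exact h1.symm
      hF := by
        intro a
        have := hF1 a
        rwa [hpow] at this
      hG := by
        intro a
        have := hG1 a
        rwa [hpow] at this
      hL := by
        intro w hw
        rw [← hF]
        have : ∀ j, Fac u ((fun w => ext φ₁ w ++ (w₁ ++ w₂))^[j] w) := by
          intro j
          induction j with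
          | zero => exact hw
          | succ j ih =>
            rw [Function.iterate_succ_apply']
            exact fac_closure hw₁ hw₂ hne hu.1 hr ih
        exact this _
      hall := fun a b => hmF a b (hall a b) }
  exact defect_zero_of_upa (D.upa hK hcr)

end Pool.Agent.R113.ZD
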