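import Pool.Agent.R113.ZD.Tree

/-!
# Exactness on all levels implies defect zero
-/

set_option autoImplicit false

namespace Pool.Agent.R113.ZD

variable {A : Type*}

/-- every nonempty factor has a unioccurrent palindromic suffix -/
def UPA (u : ℕ → A) : Prop := ∀ i n, 1 ≤ n → ∃ l, 1 ≤ l ∧ l ≤ n ∧
  (seg u (i + n - l) l).reverse = seg u (i + n - l) l ∧
  ∀ k, i ≤ k → k < i + n - l → seg u k l ≠ seg u (i + n - l) l

theorem defect_zero_of_upa {u : ℕ → A} (h : UPA u) : defectInf u = 0 := by
  have key : ∀ i n, n + 1 ≤ (palFac (seg u i n)).ncard := by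
    intro i n
    induction n with
    | zero => simp [palFac_nil]
    | succ n ih =>
      obtain ⟨l, hl1, hl2, hpal, huni⟩ := h i (n + 1) (by omega)
      have hnew : seg u (i + (n + 1) - l) l ∉ palFac (seg u i n) := by
        intro hcon
        obtain ⟨k, hk, hk'⟩ := sub_seg u i n _ hcon.1
        rw [seg_length] at hk hk'
        exact huni (i + k) (by omega) (by omega) hk'.symm
      have hmem : seg u (i + (n + 1) - l) l ∈ palFac (seg u i (n + 1)) := by
        refine ⟨?_, hpal⟩
        have := seg_sub u i (n + 1) (n + 1 - l) l (by omega)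
        have h2 : i + (n + 1 - l) = i + (n + 1) - l := by omega
        rwa [h2] at this
      have hsub : insert (seg u (i + (n + 1) - l) l) (palFac (seg u i n)) ⊆
          palFac (seg u i (n + 1)) := by
        intro p hp
        rcases hp with rfl | hp
        · exact hmem
        · rw [seg_succ']
          exact palFac_mono _ _ hp
      have h1 := Set.ncard_le_ncard hsub (palFac_finite _)
      rw [Set.ncard_insert_of_notMem hnew (palFac_finite _)] at h1
      omega
  rw [defectInf, ← bot_eq_zero, iSup_eq_bot]
  rintro ⟨w, i, hw⟩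
  have h1 := key i w.length
  rw [← hw] at h1
  have : defect w = 0 := by unfold defect; omega
  simp [this]

theorem upa_of_subsingleton [Subsingleton A] (u : ℕ → A) : UPA u := by
  intro i n hn
  refine ⟨n, hn, le_rfl, ?_, ?_⟩
  · rw [eq_comm, seg_eq_reverse_iff]
    intro k hk
    exact Subsingleton.elim _ _
  · intro k hk hk'
    omega

theorem upa_of_ex {u : ℕ → A} (h : ∀ m, 1 ≤ m → EX u m) : UPA u := by
  classical
  intro i n hn
  -- longest palindromic suffix
  set P : ℕ → Prop := fun l => l ≤ n ∧ (seg u (i + n - l) l).reverse = seg u (i + n - l) l with hP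
  have hP1 : P 1 := ⟨hn, by rw [seg_one]; rfl⟩
  set l := Nat.findGreatest P n with hl
  have hPl : P l := Nat.findGreatest_spec hn hP1
  have hl1 : 1 ≤ l := Nat.le_findGreatest hn hP1
  have hmax : ∀ l', l < l' → l' ≤ n → ¬ P l' := fun l' h1 h2 => Nat.findGreatest_is_greatest h1 h2
  refine ⟨l, hl1, hPl.1, hPl.2, ?_⟩
  by_contra hcon
  push Not at hcon
  -- largest previous occurrence
  set b := i + n - l with hb
  set Q : ℕ → Prop := fun k => i ≤ k ∧ k < b ∧ seg u k l = seg u b l with hQ
  obtain ⟨k0, hk0a, hk0b, hk0c⟩ := hcon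
  set a := Nat.findGreatest Q (b - 1) with ha
  have hQk : Q k0 := ⟨hk0a, hk0b, hk0c⟩
  have hQa : Q a := Nat.findGreatest_spec (m := k0) (by omega) hQk
  have hmaxa : ∀ k, a < k → k < b → seg u k l ≠ seg u b l := by
    intro k h1 h2 h3
    exact Nat.findGreatest_is_greatest (P := Q) h1 (by omega) ⟨by have := hQa.1; omega, h2, h3⟩
  obtain ⟨hia, hab, hqa⟩ := hQa
  obtain ⟨hln, hpalq⟩ := hPl
  set N := b - a + l with hN
  have hpq := pal_index hpalq
  rw [← hb] at hpq
  have hnp : ¬ ((seg u a N).reverse = seg u a N) := by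
    intro hcon
    apply hmax N (by omega) (by omega)
    refine ⟨by omega, ?_⟩
    have : i + n - N = a := by omega
    rw [this]; exact hcon
  -- first mismatch
  have hex : ∃ t, t < N ∧ u (a + t) ≠ u (a + (N - 1 - t)) := by
    by_contra hcon
    push Not at hcon
    apply hnp
    rw [eq_comm, seg_eq_reverse_iff]
    exact hcon
  set t := Nat.find hex with ht
  obtain ⟨htN, htne⟩ := Nat.find_spec hex
  rw [← ht] at htN htne
  have htmin : ∀ s < t, u (a + s) = u (a + (N - 1 - s)) := by
    intro s hs
    by_contra hcon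
    exact Nat.find_min hex hs ⟨by omega, hcon⟩
  have ht2 : 2 * t + 2 ≤ N := by
    by_contra hcon
    have h1 : N - 1 - t ≤ t := by omega
    rcases Nat.lt_or_ge (N - 1 - t) t with h2 | h2
    · have := htmin (N - 1 - t) h2
      apply htne
      have h3 : N - 1 - (N - 1 - t) = t := by omega
      rw [h3] at this
      exact this.symm
    · apply htne
      congr 2
      omega
  have htl : l ≤ t := by
    by_contra hcon
    apply htne
    rw [seg_eq_iff] at hqa
    rw [hqa t (by omega), hpq t (by omega)]
    congr 1
    omega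
  set p := seg u a t with hp
  have hprev : seg u (a + (N - t)) t = p.reverse := by
    rw [hp, seg_eq_reverse_iff]
    intro s hs
    have := htmin (t - 1 - s) (by omega)
    rw [this]
    congr 1
    omega
  set x := u (a + t) with hx
  set f : List A → ℝ := fun z =>
    (if z = p ++ [x] then 1 else 0) - (if z = x :: p.reverse then 1 else 0) with hf
  have hfa : ∀ z, f z.reverse = - f z := by
    intro z
    simp only [hf]
    have h1 : z.reverse = p ++ [x] ↔ z = x :: p.reverse := by
      rw [List.reverse_eq_iff]; simp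
    have h2 : z.reverse = x :: p.reverse ↔ z = p ++ [x] := by
      rw [List.reverse_eq_iff]; simp
    simp only [h1, h2]
    ring
  obtain ⟨g, hg1, hg2⟩ := h t (by omega) f hfa
  have hsum0 : ∑ k ∈ Finset.range (N - t), f (seg u (a + k) (t + 1)) = 0 := by
    have h1 : ∀ M, ∑ k ∈ Finset.range M, f (seg u (a + k) (t + 1)) =
        g (seg u (a + M) t) - g (seg u a t) := by
      intro M
      induction M with
      | zero => simp
      | succ M ih => rw [Finset.sum_range_succ, ih, hg2, Nat.add_assoc]; ring
    rw [h1, hprev, hp, hg1]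
    ring
  have hrev : ∀ k, k < N - t → seg u (a + k) (t + 1) ≠ x :: p.reverse := by
    intro k hk hcon
    rw [seg_succ] at hcon
    obtain ⟨hc1, hc2⟩ := List.cons_eq_cons.mp hcon
    rw [hp, seg_eq_reverse_iff] at hc2
    have h1 : seg u (a + k + 1 + (t - l)) l = seg u b l := by
      rw [← hqa, seg_eq_iff]
      intro s hs
      have h2 := hc2 (t - l + s) (by omega)
      have h3 := htmin (t - 1 - (t - l + s)) (by omega)
      rw [Nat.add_assoc _ (t - l) s, h2]
      have h4 : a + (t - 1 - (t - l + s)) = a + (l - 1 - s) := by omega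
      rw [h4]
      rw [seg_eq_iff] at hqa
      rw [hqa _ (by omega), hqa _ (by omega), hpq s hs]
    have h2 : ¬ (a + k + 1 + (t - l) < b) := by
      intro h3
      exact hmaxa _ (by omega) h3 h1
    have h3 : k = N - 1 - t := by omega
    apply htne
    rw [← hc1, h3]
  have hfst : ∀ k, 0 < k → k < N - t → seg u (a + k) (t + 1) ≠ p ++ [x] := by
    intro k hk0 hk hcon
    rw [seg_succ'] at hcon
    have hc2 := List.append_inj_left hcon (by simp [hp])
    rw [hp, seg_eq_iff] at hc2
    have h1 : seg u (a + k) l = seg u b l := by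
      rw [← hqa, seg_eq_iff]
      intro s hs
      exact hc2 s (by omega)
    exact hmaxa (a + k) (by omega) (by omega) h1
  have hsum1 : ∑ k ∈ Finset.range (N - t), f (seg u (a + k) (t + 1)) = 1 := by
    rw [Finset.sum_eq_single_of_mem 0 (by simp; omega)]
    · have h1 : seg u (a + 0) (t + 1) = p ++ [x] := by
        rw [Nat.add_zero, seg_succ']
      have h2 := hrev 0 (by omega)
      rw [h1] at h2 ⊢
      simp only [hf, if_true, if_neg h2]
      norm_num
    · intro k hk hk0
      rw [Finset.mem_range] at hk
      simp only [hf]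
      rw [if_neg (hfst k (by omega) hk), if_neg (hrev k hk)]
      norm_num
  rw [hsum0] at hsum1
  norm_num at hsum1

end Pool.Agent.R113.ZD
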