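import Mathlib

/-!
# Segments of infinite words, palindromic defect
-/

set_option autoImplicit false

namespace Pool.Agent.R113.ZD

variable {A : Type*}

/-- the factor of length `n` of the infinite word `u` that starts at position `i` -/
def seg (u : ℕ → A) (i n : ℕ) : List A := (List.range n).map (fun k => u (i + k))

/-- `w` is a factor of the infinite word `u` -/
def Fac (u : ℕ → A) (w : List A) : Prop := ∃ i, w = seg u i w.length

@[simp] theorem seg_length (u : ℕ → A) (i n : ℕ) : (seg u i n).length = n := by simp [seg]

@[simp] theorem seg_zero (u : ℕ → A) (i : ℕ) : seg u i 0 = [] := by simp [seg]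

theorem seg_getElem (u : ℕ → A) (i n k : ℕ) (h : k < (seg u i n).length) :
    (seg u i n)[k] = u (i + k) := by simp [seg]

theorem seg_getElem? (u : ℕ → A) (i n k : ℕ) (h : k < n) :
    (seg u i n)[k]? = some (u (i + k)) := by simp [seg, h]

theorem seg_add (u : ℕ → A) (i m n : ℕ) : seg u i (m + n) = seg u i m ++ seg u (i + m) n := by
  simp [seg, List.range_add, Function.comp_def, Nat.add_assoc]

theorem seg_one (u : ℕ → A) (i : ℕ) : seg u i 1 = [u i] := by simp [seg]

theorem seg_succ (u : ℕ → A) (i n : ℕ) : seg u i (n + 1) = u i :: seg u (i + 1) n := by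
  rw [Nat.add_comm, seg_add, seg_one]; rfl

theorem seg_succ' (u : ℕ → A) (i n : ℕ) : seg u i (n + 1) = seg u i n ++ [u (i + n)] := by
  rw [seg_add, seg_one]

theorem seg_eq_iff (u : ℕ → A) (i j n : ℕ) :
    seg u i n = seg u j n ↔ ∀ k < n, u (i + k) = u (j + k) := by
  constructor
  · intro h k hk
    have h1 := seg_getElem? u i n k hk
    rw [h, seg_getElem? u j n k hk] at h1
    exact (Option.some.inj h1).symm
  · intro h
    apply List.ext_getElem (by simp)
    intro k h1 h2
    rw [seg_getElem, seg_getElem]
    exact h k (by simpa using h1)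

theorem seg_reverse_getElem (u : ℕ → A) (i n k : ℕ) (h : k < (seg u i n).reverse.length) :
    (seg u i n).reverse[k] = u (i + (n - 1 - k)) := by
  rw [List.getElem_reverse, seg_getElem]
  simp

theorem seg_eq_reverse_iff (u : ℕ → A) (i j n : ℕ) :
    seg u i n = (seg u j n).reverse ↔ ∀ k < n, u (i + k) = u (j + (n - 1 - k)) := by
  constructor
  · intro h k hk
    have h1 := seg_getElem u i n k (by simpa using hk)
    have h2 := seg_reverse_getElem u j n k (by simpa using hk)
    rw [← h1, ← h2]
    congr 1
  · intro h
    apply List.ext_getElem (by simp)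
    intro k h1 h2
    rw [seg_getElem, seg_reverse_getElem]
    exact h k (by simpa using h1)

theorem Fac.seg (u : ℕ → A) (i n : ℕ) : Fac u (seg u i n) := ⟨i, by simp⟩

theorem fac_iff (u : ℕ → A) (w : List A) : Fac u w ↔ ∃ i n, w = ZD.seg u i n := by
  constructor
  · rintro ⟨i, h⟩; exact ⟨i, _, h⟩
  · rintro ⟨i, n, h⟩; rw [h]; exact Fac.seg u i n

/-- a factor of a segment is a segment -/
theorem sub_seg (u : ℕ → A) (i n : ℕ) (w : List A) (h : w <:+: seg u i n) :
    ∃ k, k + w.length ≤ n ∧ w = seg u (i + k) w.length := by
  obtain ⟨s, t, h⟩ := h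
  have hl : s.length + w.length + t.length = n := by
    have := congrArg List.length h
    simpa [Nat.add_assoc] using this
  refine ⟨s.length, by omega, ?_⟩
  have h1 : seg u i n = seg u i s.length ++ seg u (i + s.length) w.length ++
      seg u (i + (s.length + w.length)) t.length := by
    rw [← seg_add, ← seg_add, hl]
  rw [h1] at h
  have h2 := List.append_inj_left h (by simp)
  exact List.append_inj_right h2 (by simp)

theorem Fac.sub {u : ℕ → A} {v w : List A} (hv : Fac u v) (h : w <:+: v) : Fac u w := by
  obtain ⟨i, hi⟩ := hv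
  rw [hi] at h
  obtain ⟨k, _, hk⟩ := sub_seg u i _ w h
  exact ⟨i + k, hk⟩

theorem seg_sub (u : ℕ → A) (i n k m : ℕ) (h : k + m ≤ n) : seg u (i + k) m <:+: seg u i n := by
  refine ⟨seg u i k, seg u (i + (k + m)) (n - (k + m)), ?_⟩
  rw [← seg_add, ← seg_add]
  congr 1
  omega

/-! ### morphisms -/

/-- extension of a letter substitution to words -/
def ext (φ : A → List A) (w : List A) : List A := w.flatMap φ

@[simp] theorem ext_nil (φ : A → List A) : ext φ [] = [] := rfl

@[simp] theorem ext_cons (φ : A → List A) (a : A) (w : List A) :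
    ext φ (a :: w) = φ a ++ ext φ w := by simp [ext]

@[simp] theorem ext_append (φ : A → List A) (v w : List A) :
    ext φ (v ++ w) = ext φ v ++ ext φ w := by simp [ext]

theorem ext_singleton (φ : A → List A) (a : A) : ext φ [a] = φ a := by simp [ext]

/-! ### defect -/

/-- the palindromic factors of a finite word, the empty word included -/
def palFac (w : List A) : Set (List A) := {p | p <:+: w ∧ p.reverse = p}

/-- the palindromic defect of a finite word -/
noncomputable def defect (w : List A) : ℕ := w.length + 1 - (palFac w).ncard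

/-- the palindromic defect of an infinite word -/
noncomputable def defectInf (u : ℕ → A) : ℕ∞ := ⨆ w : {w : List A // Fac u w}, (defect w.1 : ℕ∞)

theorem palFac_finite (w : List A) : (palFac w).Finite := by
  apply (List.finite_toSet w.sublists).subset
  intro p hp
  simpa using hp.1.sublist

/-- adding a letter on the right adds at most one palindromic factor -/
theorem palFac_new_unique (w : List A) (x : A) {p q : List A}
    (hp : p ∈ palFac (w ++ [x])) (hp' : p ∉ palFac w)
    (hq : q ∈ palFac (w ++ [x])) (hq' : q ∉ palFac w) : p = q := by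
  have key : ∀ r : List A, r ∈ palFac (w ++ [x]) → r ∉ palFac w → r <:+ w ++ [x] := by
    intro r hr hr'
    obtain ⟨s, t, h⟩ := hr.1
    rcases List.eq_nil_or_concat t with rfl | ⟨t', y, rfl⟩
    · exact ⟨s, by simpa using h⟩
    · exfalso
      apply hr'
      refine ⟨⟨s, t', ?_⟩, hr.2⟩
      have h2 : (s ++ r ++ t') ++ [y] = w ++ [x] := by simpa using h
      exact (List.append_inj' h2 (by simp)).1
  have aux : ∀ r s : List A, r ∈ palFac (w ++ [x]) → r ∉ palFac w → s ∈ palFac (w ++ [x]) →
      s ∉ palFac w → r.length < s.length → False := by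
    intro r s hr hr' hs hs' hl
    have h1 := key r hr hr'
    have h2 := key s hs hs'
    have h3 : r <:+ s := List.suffix_of_suffix_length_le h1 h2 hl.le
    have h4 : r <+: s := by
      have := List.reverse_prefix.mpr h3
      rwa [hr.2, hs.2] at this
    obtain ⟨t, ht⟩ := h4
    obtain ⟨z, hz⟩ := h2
    have ht' : t ≠ [] := by
      rintro rfl
      simp at ht
      rw [ht] at hl
      omega
    obtain ⟨t', y, rfl⟩ : ∃ t' y, t = t' ++ [y] :=
      ⟨t.dropLast, t.getLast ht', (List.dropLast_append_getLast ht').symm⟩
    apply hr'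
    refine ⟨⟨z, t', ?_⟩, hr.2⟩
    have h5 : (z ++ r ++ t') ++ [y] = w ++ [x] := by
      rw [← hz, ← ht]; simp
    exact (List.append_inj' h5 (by simp)).1
  have h1 := key p hp hp'
  have h2 := key q hq hq'
  rcases lt_trichotomy p.length q.length with h | h | h
  · exact (aux p q hp hp' hq hq' h).elim
  · exact (List.suffix_of_suffix_length_le h1 h2 h.le).eq_of_length h
  · exact (aux q p hq hq' hp hp' h).elim

theorem palFac_mono (w : List A) (x : A) : palFac w ⊆ palFac (w ++ [x]) := by
  intro p hp
  exact ⟨hp.1.trans ⟨[], [x], by simp⟩, hp.2⟩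

theorem palFac_ncard_succ_le (w : List A) (x : A) :
    (palFac (w ++ [x])).ncard ≤ (palFac w).ncard + 1 := by
  have h1 : (palFac (w ++ [x]) \ palFac w).ncard ≤ 1 := by
    rw [Set.ncard_le_one ((palFac_finite _).subset Set.sdiff_subset)]
    intro a ha b hb
    exact palFac_new_unique w x ha.1 ha.2 hb.1 hb.2
  have h2 := Set.ncard_sdiff_add_ncard_of_subset (palFac_mono w x) (palFac_finite _)
  omega

theorem palFac_nil : palFac ([] : List A) = {[]} := by
  ext p
  simp only [palFac, Set.mem_ofPred_eq, Set.mem_singleton_iff]
  constructor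
  · exact fun h => List.sublist_nil.mp h.1.sublist
  · rintro rfl; exact ⟨⟨[], [], rfl⟩, rfl⟩

theorem palFac_ncard_le (w : List A) : (palFac w).ncard ≤ w.length + 1 := by
  induction w using List.reverseRecOn with
  | nil => simp [palFac_nil]
  | append_singleton w x ih =>
    have := palFac_ncard_succ_le w x
    simp only [List.length_append, List.length_singleton]
    omega

end Pool.Agent.R113.ZD
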