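import Pool.Agent.R113.ZD.Rich

/-!
# The induction step for exactness, and the base cases
-/

set_option autoImplicit false

namespace Pool.Agent.R113.ZD

variable {A : Type*}

/-- local exactness at `w` -/
def LE (u : ℕ → A) (w : List A) : Prop := ∀ f : A → A → ℝ,
  (w.reverse = w → ∀ x y, f x y = - f y x) →
    ∃ α β : A → ℝ, ∀ x y, Fac u (x :: (w ++ [y])) → f x y = β y - α x

theorem ex_zero (u : ℕ → A) : EX u 0 := by
  intro f hf
  refine ⟨fun _ => 0, fun _ => rfl, fun i => ?_⟩
  have h1 := hf (seg u i (0 + 1))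
  rw [Nat.zero_add, seg_one] at h1 ⊢
  simp only [List.reverse_cons, List.reverse_nil, List.nil_append] at h1
  linarith

theorem ex_step {u : ℕ → A} (hcr : CR u) {m : ℕ} (hEX : EX u m)
    (hLE : ∀ w : List A, w.length = m → LE u w) : EX u (m + 1) := by
  classical
  intro f hf
  have hloc : ∀ w : List A, ∃ α β : A → ℝ, w.length = m →
      ∀ x y, Fac u (x :: (w ++ [y])) → f (x :: (w ++ [y])) = β y - α x := by
    intro w
    by_cases hw : w.length = m
    · obtain ⟨α, β, h⟩ := hLE w hw (fun x y => f (x :: (w ++ [y]))) (by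
        intro hrev x y
        have := hf (y :: (w ++ [x]))
        simp only [List.reverse_cons, List.reverse_append, List.reverse_nil, List.nil_append,
          hrev, List.cons_append] at this
        exact this)
      exact ⟨α, β, fun _ => h⟩
    · exact ⟨0, 0, fun h => absurd h hw⟩
  choose α β hαβ using hloc
  obtain ⟨α', hα'⟩ : ∃ α' : List A → A → ℝ, α' = fun w x => (α w x + β w.reverse x) / 2 :=
    ⟨_, rfl⟩
  obtain ⟨β', hβ'⟩ : ∃ β' : List A → A → ℝ, β' = fun w x => (β w x + α w.reverse x) / 2 :=
    ⟨_, rfl⟩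
  have hα : ∀ w x, α' w.reverse x = β' w x := by
    intro w x
    simp only [hα', hβ', List.reverse_reverse]
    ring
  have hβ : ∀ w x, β' w.reverse x = α' w x := by
    intro w x
    simp only [hα', hβ', List.reverse_reverse]
    ring
  have hloc' : ∀ i, f (seg u i (m + 1 + 1)) =
      β' (seg u (i + 1) m) (u (i + 1 + m)) - α' (seg u (i + 1) m) (u i) := by
    intro i
    have e1 : seg u i (m + 1 + 1) = u i :: (seg u (i + 1) m ++ [u (i + 1 + m)]) := by
      rw [seg_succ, seg_succ']
    have h1 := hαβ (seg u (i + 1) m) (by simp) (u i) (u (i + 1 + m))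
      (by rw [← e1]; exact Fac.seg u i _)
    obtain ⟨j, hj⟩ := hcr i (m + 1 + 1)
    have e2 : u (i + 1 + m) :: ((seg u (i + 1) m).reverse ++ [u i]) = seg u j (m + 1 + 1) := by
      rw [← hj, e1]; simp
    have h2 := hαβ (seg u (i + 1) m).reverse (by simp) (u (i + 1 + m)) (u i)
      (by rw [e2]; exact Fac.seg u j _)
    have h3 := hf (seg u i (m + 1 + 1))
    rw [hj, ← e2, h2, e1, h1] at h3
    rw [e1, h1]
    simp only [hα', hβ']
    linarith
  obtain ⟨f1, hf1⟩ : ∃ f1 : List A → ℝ, f1 = fun e =>
    β' e.dropLast (e.getLastD (u 0)) - α' e.tail (e.headD (u 0)) := ⟨_, rfl⟩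
  obtain ⟨f2, hf2⟩ : ∃ f2 : List A → ℝ, f2 = fun e => (f1 e - f1 e.reverse) / 2 := ⟨_, rfl⟩
  have hf2a : ∀ w, f2 w.reverse = - f2 w := by
    intro w
    simp only [hf2, List.reverse_reverse]
    ring
  have hdl : ∀ i, (seg u i (m + 1)).dropLast = seg u i m := by
    intro i; rw [seg_succ']; simp
  have hgl : ∀ i, (seg u i (m + 1)).getLastD (u 0) = u (i + m) := by
    intro i; rw [seg_succ']; simp
  have htl : ∀ i, (seg u i (m + 1)).tail = seg u (i + 1) m := by
    intro i; rw [seg_succ]; simp
  have hhd : ∀ i, (seg u i (m + 1)).headD (u 0) = u i := by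
    intro i; rw [seg_succ]; simp
  have hf1s : ∀ i, f1 (seg u i (m + 1)) =
      β' (seg u i m) (u (i + m)) - α' (seg u (i + 1) m) (u i) := by
    intro i
    simp only [hf1, hdl, hgl, htl, hhd]
  -- reversed segments
  have hrevs : ∀ i, ∃ j, (seg u i (m + 1)).reverse = seg u j (m + 1) ∧ u j = u (i + m) ∧
      seg u (j + 1) m = (seg u i m).reverse ∧ seg u j m = (seg u (i + 1) m).reverse ∧
      u (j + m) = u i := by
    intro i
    obtain ⟨j, hj⟩ := hcr i (m + 1)
    refine ⟨j, hj, ?_⟩
    have h1 := hj
    rw [seg_succ', seg_succ u j] at h1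
    have h2 := hj
    rw [seg_succ, seg_succ' u j] at h2
    simp only [List.reverse_append, List.reverse_cons, List.reverse_nil, List.nil_append,
      List.singleton_append] at h1 h2
    obtain ⟨h3, h4⟩ := List.cons_eq_cons.mp h1
    have h5 := List.append_inj_left h2 (by simp)
    have h6 := List.append_inj_right h2 (by simp)
    exact ⟨h3.symm, h4.symm, h5.symm, (List.cons_eq_cons.mp h6).1.symm⟩
  have hf2s : ∀ i, f2 (seg u i (m + 1)) =
      β' (seg u i m) (u (i + m)) - α' (seg u (i + 1) m) (u i) := by
    intro i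
    obtain ⟨j, hj, h1, h2, h3, h4⟩ := hrevs i
    simp only [hf2]
    rw [hj, hf1s, hf1s, h1, h2, h3, h4, hα, hβ]
    ring
  obtain ⟨g, hg1, hg2⟩ := hEX f2 hf2a
  have hval : ∀ i, α' (seg u (i + 1) m) (u i) + g (seg u (i + 1) m) =
      β' (seg u i m) (u (i + m)) + g (seg u i m) := by
    intro i
    have := hg2 i
    rw [hf2s] at this
    linarith
  refine ⟨fun e => α' e.tail (e.headD (u 0)) + g e.tail, fun i => ?_, fun i => ?_⟩
  · obtain ⟨j, hj, h1, h2, h3, h4⟩ := hrevs i
    simp only [hj, htl, hhd, h1, h2, hα]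
    rw [hg1, hval]
  · simp only [htl, hhd]
    rw [hloc', hval (i + 1)]
    ring

/-! ### the letter level in the stationary case -/

/-- sum of a function over the adjacent pairs of letters of a word -/
def ps (f : List A → ℝ) : List A → ℝ
  | [] => 0
  | [_] => 0
  | (x :: y :: t) => f [x, y] + ps f (y :: t)

theorem ps_append (f : List A → ℝ) (s : List A) (x y : A) (t : List A) :
    ps f (s ++ x :: y :: t) = ps f (s ++ [x]) + f [x, y] + ps f (y :: t) := by
  induction s with
  | nil => simp [ps]
  | cons a s ih =>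
    cases s with
    | nil => simp [ps]; ring
    | cons b s =>
      simp only [List.cons_append, ps] at ih ⊢
      rw [ih]; ring

theorem ps_reverse (f : List A → ℝ) (hf : ∀ w, f w.reverse = - f w) (w : List A) :
    ps f w.reverse = - ps f w := by
  induction w with
  | nil => simp [ps]
  | cons x t ih =>
    cases t with
    | nil => simp [ps]
    | cons y t =>
      have h1 : (x :: y :: t).reverse = t.reverse ++ y :: x :: [] := by simp
      have h2 : (y :: t).reverse = t.reverse ++ [y] := by simp
      rw [h1, ps_append, ← h2, ih]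
      have h3 := hf [x, y]
      simp only [List.reverse_cons, List.reverse_nil, List.nil_append, List.cons_append] at h3
      simp only [ps, h3]
      ring

theorem ps_seg (f : List A → ℝ) (u : ℕ → A) (i n : ℕ) :
    ps f (seg u i (n + 1)) = ∑ k ∈ Finset.range n, f (seg u (i + k) 2) := by
  induction n with
  | zero => simp [seg_one, ps]
  | succ n ih =>
    rw [Finset.sum_range_succ, ← ih]
    have h1 : seg u i (n + 1 + 1) = seg u i n ++ u (i + n) :: u (i + n + 1) :: [] := by
      rw [seg_succ', seg_succ']
      simp [Nat.add_assoc]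
    have h2 : seg u (i + n) 2 = [u (i + n), u (i + n + 1)] := by
      rw [seg_succ, seg_one]
    rw [h1, ps_append, h2, seg_succ' u i n]
    simp [ps]

theorem ps_ext (f : List A → ℝ) (θ : A → List A) (h1 : ∀ a, ∃ t, θ a = t ++ [a])
    (h2 : ∀ a, ∃ t, θ a = a :: t) (w : List A) :
    ps f (ext θ w) = (w.map (fun a => ps f (θ a))).sum + ps f w := by
  induction w with
  | nil => simp [ps]
  | cons a w ih =>
    cases w with
    | nil => simp [ps]
    | cons b w =>
      obtain ⟨s, hs⟩ := h1 a
      obtain ⟨t, ht⟩ := h2 b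
      rw [ext_cons]
      have h3 : ext θ (b :: w) = b :: (t ++ ext θ w) := by rw [ext_cons, ht]; rfl
      rw [h3] at ih ⊢
      rw [hs, List.append_assoc, List.singleton_append, ps_append, ← hs, ih]
      simp only [List.map_cons, List.sum_cons, ps]
      ring

/-- the letter sums agree at equal long windows -/
theorem sum_eq_of_window {u : ℕ → A} {K : ℕ} (hK : UPS u K) {m : ℕ} (hm : K ≤ m) (hm1 : 1 ≤ m)
    (f : List A → ℝ) (hf : ∀ w, f w.reverse = - f w) (a b : ℕ)
    (h : seg u a m = seg u b m) :
    ∑ k ∈ Finset.range a, f (seg u k 2) = ∑ k ∈ Finset.range b, f (seg u k 2) := by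
  have h1 := tree_const hK hm
    (fun i => ∑ k ∈ Finset.range i, f (seg u k 2) + ps f (seg u i m) / 2) (by
      intro i j hij hpal _
      show ∑ k ∈ Finset.range i, f (seg u k 2) + ps f (seg u i m) / 2 =
        ∑ k ∈ Finset.range j, f (seg u k 2) + ps f (seg u j m) / 2
      have hpi := pal_index hpal
      have h2 : seg u j m = (seg u i m).reverse := by
        rw [seg_eq_reverse_iff]
        intro k hk
        have := hpi (j - i + k) (by omega)
        have h3 : i + (j - i + k) = j + k := by omega
        rw [h3] at this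
        rw [this]
        congr 1
        omega
      have h4 : ps f (seg u i (j - i + m)) = 0 := by
        have := ps_reverse f hf (seg u i (j - i + m))
        rw [hpal] at this
        linarith
      obtain ⟨m', rfl⟩ : ∃ m', m = m' + 1 := ⟨m - 1, by omega⟩
      have h5 : j - i + (m' + 1) = (j - i + m') + 1 := by omega
      rw [h5, ps_seg, Finset.sum_range_add] at h4
      have h6 : ∑ k ∈ Finset.range m', f (seg u (i + (j - i + k)) 2) = ps f (seg u j (m' + 1)) := by
        rw [ps_seg]
        apply Finset.sum_congr rfl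
        intro k _
        congr 2
        omega
      rw [h6] at h4
      have h7 : ps f (seg u j (m' + 1)) = - ps f (seg u i (m' + 1)) := by
        rw [h2, ps_reverse f hf]
      have h8 : ∑ k ∈ Finset.range j, f (seg u k 2) = ∑ k ∈ Finset.range i, f (seg u k 2) +
          ∑ k ∈ Finset.range (j - i), f (seg u (i + k) 2) := by
        have h9 : j = i + (j - i) := by omega
        conv_lhs => rw [h9, Finset.sum_range_add]
      rw [h8]
      linarith) a b (Or.inl h.symm)
  simp only [h] at h1
  linarith

end Pool.Agent.R113.ZD
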