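import Pool.Agent.R113.ZD.Seg

/-!
# Finite defect: the tree property of long factors
-/

set_option autoImplicit false

namespace Pool.Agent.R113.ZD

variable {A : Type*}

/-- every prefix of length larger than `K` has a unioccurrent palindromic suffix -/
def UPS (u : ℕ → A) (K : ℕ) : Prop := ∀ n, K < n → ∃ l, 1 ≤ l ∧ l ≤ n ∧
  (seg u (n - l) l).reverse = seg u (n - l) l ∧ ∀ k, k < n - l → seg u k l ≠ seg u (n - l) l

theorem exists_ups (u : ℕ → A) (h : defectInf u < ⊤) : ∃ K, UPS u K := by
  obtain ⟨B, hB⟩ := ENat.ne_top_iff_exists.mp h.ne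
  have hb : ∀ w, Fac u w → defect w ≤ B := by
    intro w hw
    have h1 : (defect w : ℕ∞) ≤ defectInf u :=
      le_iSup (fun w : {w : List A // Fac u w} => (defect w.1 : ℕ∞)) ⟨w, hw⟩
    rw [← hB] at h1
    exact_mod_cast h1
  set c : ℕ → ℕ := fun n => (palFac (seg u 0 n)).ncard with hc
  have hc1 : ∀ n, c n ≤ n + 1 := by
    intro n
    have := palFac_ncard_le (seg u 0 n)
    simpa using this
  have hc2 : ∀ n, c (n + 1) ≤ c n + 1 := by
    intro n
    have := palFac_ncard_succ_le (seg u 0 n) (u (0 + n))
    rw [← seg_succ'] at this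
    exact this
  have hd : ∀ n, n + 1 - c n ≤ B := by
    intro n
    have := hb _ (Fac.seg u 0 n)
    simpa [defect] using this
  obtain ⟨K, hK⟩ : ∃ K, ∀ n, n + 1 - c n ≤ K + 1 - c K := by
    by_contra hcon
    push Not at hcon
    have : ∀ m, ∃ n, m ≤ n + 1 - c n := by
      intro m
      induction m with
      | zero => exact ⟨0, by omega⟩
      | succ m ih =>
        obtain ⟨n, hn⟩ := ih
        obtain ⟨n', hn'⟩ := hcon n
        exact ⟨n', by omega⟩
    obtain ⟨n, hn⟩ := this (B + 1)
    have := hd n
    omega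
  have hmono : ∀ n, n + 1 - c n ≤ (n + 1) + 1 - c (n + 1) := by
    intro n
    have := hc1 n; have := hc2 n
    omega
  have hge : ∀ r, (K + r) + 1 - c (K + r) = K + 1 - c K := by
    intro r
    induction r with
    | zero => rfl
    | succ r ih =>
      have h1 := hmono (K + r)
      have h2 := hK (K + r + 1)
      have h3 : K + (r + 1) = K + r + 1 := by omega
      rw [h3]
      omega
  refine ⟨K, ?_⟩
  intro n hn
  obtain ⟨r, rfl⟩ : ∃ r, n = K + r + 1 := ⟨n - K - 1, by omega⟩
  set N := K + r with hN
  have h1 := hge r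
  have h2 := hge (r + 1)
  have h3 : K + (r + 1) = N + 1 := by omega
  rw [h3] at h2
  rw [← hN] at h1
  have h4 : c N < c (N + 1) := by
    have := hc1 N; have := hc1 (N + 1)
    omega
  obtain ⟨q, hq, hq'⟩ := Set.exists_mem_notMem_of_ncard_lt_ncard h4 (palFac_finite _)
  obtain ⟨k, hk, hk'⟩ := sub_seg u 0 (N + 1) q hq.1
  rw [Nat.zero_add] at hk'
  have hk2 : ¬ k + q.length ≤ N := by
    intro hcon
    apply hq'
    refine ⟨?_, hq.2⟩
    rw [hk']
    have := seg_sub u 0 N k q.length hcon
    rwa [Nat.zero_add] at this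
  have hk3 : N + 1 - q.length = k := by omega
  refine ⟨q.length, ?_, by omega, ?_, ?_⟩
  · rcases Nat.eq_zero_or_pos q.length with h0 | h0
    · exfalso
      rw [List.length_eq_zero_iff] at h0
      apply hq'
      rw [h0]
      exact ⟨⟨[], _, rfl⟩, rfl⟩
    · exact h0
  · rw [hk3, ← hk']
    exact hq.2
  · intro k' hk'' hcon
    rw [hk3] at hk'' hcon
    rw [← hk'] at hcon
    apply hq'
    refine ⟨?_, hq.2⟩
    have := seg_sub u 0 N k' q.length (by omega)
    rw [Nat.zero_add, hcon] at this
    exact this

/-- equality up to reversal -/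
def Cl (v w : List A) : Prop := v = w ∨ v = w.reverse

theorem Cl.refl (v : List A) : Cl v v := Or.inl rfl

theorem Cl.symm {v w : List A} (h : Cl v w) : Cl w v := by
  rcases h with h | h
  · exact Or.inl h.symm
  · exact Or.inr (by rw [h, List.reverse_reverse])

theorem Cl.trans {v w z : List A} (h : Cl v w) (h' : Cl w z) : Cl v z := by
  rcases h with h | h <;> rcases h' with h' | h'
  · exact Or.inl (h.trans h')
  · exact Or.inr (h.trans h')
  · exact Or.inr (by rw [h, h'])
  · exact Or.inl (by rw [h, h', List.reverse_reverse])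

theorem pal_index {u : ℕ → A} {i n : ℕ} (h : (seg u i n).reverse = seg u i n) :
    ∀ k < n, u (i + k) = u (i + (n - 1 - k)) :=
  (seg_eq_reverse_iff u i i n).mp h.symm

/-- windows of equivalent segments -/
theorem Cl.window {u : ℕ → A} {a i n m : ℕ} (h : Cl (seg u a n) (seg u i n)) (d : ℕ)
    (hd : d + m ≤ n) :
    ∃ d', (d' = d ∨ d' = n - m - d) ∧ Cl (seg u (a + d) m) (seg u (i + d') m) := by
  rcases h with h | h
  · refine ⟨d, Or.inl rfl, Or.inl ?_⟩
    rw [seg_eq_iff] at h ⊢
    intro k hk
    have := h (d + k) (by omega)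
    rw [Nat.add_assoc, Nat.add_assoc]
    exact this
  · refine ⟨n - m - d, Or.inr rfl, Or.inr ?_⟩
    rw [seg_eq_reverse_iff] at h ⊢
    intro k hk
    have := h (d + k) (by omega)
    rw [Nat.add_assoc, this]
    congr 1
    omega

theorem tree_pal {u : ℕ → A} {K : ℕ} (hK : UPS u K) {m i j : ℕ} (hm : K ≤ m) (hij : i < j)
    (hcl : Cl (seg u j m) (seg u i m))
    (hin : ∀ k, i < k → k < j → ¬ Cl (seg u k m) (seg u i m)) :
    (seg u i (j - i + m)).reverse = seg u i (j - i + m) := by
  classical
  set n := j - i + m with hn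
  have hex : ∃ a, Cl (seg u a n) (seg u i n) := ⟨i, Cl.refl _⟩
  set a := Nat.find hex with ha
  have hcla : Cl (seg u a n) (seg u i n) := Nat.find_spec hex
  have hmin : ∀ b < a, ¬ Cl (seg u b n) (seg u i n) := fun b hb => Nat.find_min hex hb
  obtain ⟨l, hl1, hl2, hpal, huni⟩ := hK (a + n) (by omega)
  set b := a + n - l with hb
  have hpi := pal_index hpal
  -- the end windows
  have hend : ∀ d, (d = 0 ∨ d = n - m) → Cl (seg u (a + d) m) (seg u i m) := by
    intro d hd
    obtain ⟨d', hd', hc⟩ := hcla.window (m := m) d (by omega)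
    have : d' = 0 ∨ i + d' = j := by omega
    rcases this with h | h
    · rw [h, Nat.add_zero] at hc; exact hc
    · rw [h] at hc; exact hc.trans hcl
  rcases lt_trichotomy l n with hln | hln | hln
  · exfalso
    rcases Nat.lt_or_ge m l with hml | hml
    · -- inner window
      have h1 : Cl (seg u b m) (seg u (a + (n - m)) m) := by
        right
        rw [seg_eq_reverse_iff]
        intro k hk
        rw [hpi k (by omega)]
        congr 1
        omega
      have h2 := h1.trans (hend (n - m) (Or.inr rfl))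
      obtain ⟨d', hd', hc⟩ := hcla.window (m := m) (n - l) (by omega)
      have hab : a + (n - l) = b := by omega
      rw [hab] at hc
      exact hin (i + d') (by omega) (by omega) (hc.symm.trans h2)
    · have h1 : Cl (seg u a m) (seg u (a + (n - m)) m) :=
        ((hend 0 (Or.inl rfl)).trans (hend (n - m) (Or.inr rfl)).symm)
      rcases h1 with h1 | h1
      · rw [seg_eq_iff] at h1
        apply huni (a + (m - l)) (by omega)
        rw [seg_eq_iff]
        intro k hk
        have := h1 (m - l + k) (by omega)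
        rw [Nat.add_assoc, this]
        congr 1
        omega
      · rw [seg_eq_reverse_iff] at h1
        apply huni a (by omega)
        rw [seg_eq_iff]
        intro k hk
        rw [h1 k (by omega), hpi k hk]
        congr 1
        omega
  · have hba : b = a := by omega
    rw [hba, hln] at hpal
    rcases hcla with h | h
    · rw [h] at hpal; exact hpal
    · have h2 : seg u i n = seg u a n := by
        rw [← hpal, h, List.reverse_reverse]
      rw [h2]; exact hpal
  · exfalso
    apply hmin b (by omega)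
    refine Cl.trans ?_ hcla
    right
    rw [seg_eq_reverse_iff]
    intro k hk
    rw [hpi k (by omega)]
    congr 1
    omega

theorem tree_const {u : ℕ → A} {K : ℕ} (hK : UPS u K) {m : ℕ} (hm : K ≤ m) (S : ℕ → ℝ)
    (hS : ∀ i j, i < j → (seg u i (j - i + m)).reverse = seg u i (j - i + m) →
      Cl (seg u j m) (seg u i m) → S i = S j) :
    ∀ i j, Cl (seg u j m) (seg u i m) → S i = S j := by
  have key : ∀ d i j, j = i + d → Cl (seg u j m) (seg u i m) → S i = S j := by
    intro d
    induction d using Nat.strong_induction_on with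
    | _ d ih =>
      intro i j hj hc
      rcases Nat.eq_zero_or_pos d with h0 | h0
      · have : j = i := by omega
        rw [this]
      · by_cases hin : ∃ k, i < k ∧ k < j ∧ Cl (seg u k m) (seg u i m)
        · obtain ⟨k, hk1, hk2, hk3⟩ := hin
          have h1 := ih (k - i) (by omega) i k (by omega) hk3
          have h2 := ih (j - k) (by omega) k j (by omega) (hc.trans hk3.symm)
          rw [h1, h2]
        · push Not at hin
          exact hS i j (by omega) (tree_pal hK hm (by omega) hc hin) hc
  intro i j hc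
  rcases Nat.le_total i j with h | h
  · exact key (j - i) i j (by omega) hc
  · exact (key (i - j) j i (by omega) hc.symm).symm

/-- exactness of the antisymmetric functions on the factors of length `m + 1` -/
def EX (u : ℕ → A) (m : ℕ) : Prop := ∀ f : List A → ℝ, (∀ w, f w.reverse = - f w) →
  ∃ h : List A → ℝ, (∀ i, h (seg u i m).reverse = h (seg u i m)) ∧
    ∀ i, f (seg u i (m + 1)) = h (seg u (i + 1) m) - h (seg u i m)

theorem exact_of_const {u : ℕ → A} {m : ℕ} (f : List A → ℝ)
    (hS : ∀ i j, Cl (seg u j m) (seg u i m) →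
      ∑ k ∈ Finset.range i, f (seg u k (m + 1)) = ∑ k ∈ Finset.range j, f (seg u k (m + 1))) :
    ∃ h : List A → ℝ, (∀ i, h (seg u i m).reverse = h (seg u i m)) ∧
      ∀ i, f (seg u i (m + 1)) = h (seg u (i + 1) m) - h (seg u i m) := by
  classical
  set S : ℕ → ℝ := fun i => ∑ k ∈ Finset.range i, f (seg u k (m + 1)) with hSdef
  set h : List A → ℝ := fun w => if hw : ∃ i, Cl (seg u i m) w then S hw.choose else 0 with hh
  have h1 : ∀ w i, Cl (seg u i m) w → h w = S i := by
    intro w i hi
    have hw : ∃ i, Cl (seg u i m) w := ⟨i, hi⟩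
    have : h w = S hw.choose := by simp only [hh]; rw [dif_pos hw]
    rw [this]
    exact hS _ _ (hi.trans hw.choose_spec.symm)
  refine ⟨h, fun i => ?_, fun i => ?_⟩
  · rw [h1 _ i (Cl.refl _), h1 _ i (Or.inr (List.reverse_reverse _).symm)]
  · rw [h1 _ (i + 1) (Cl.refl _), h1 _ i (Cl.refl _)]
    simp only [hSdef, Finset.sum_range_succ]
    ring

/-- a sum of an antisymmetric function over the windows of a palindrome vanishes -/
theorem sum_pal_zero {u : ℕ → A} (f : List A → ℝ) (hf : ∀ w, f w.reverse = - f w) {i n m : ℕ}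
    (hpal : (seg u i (n + m)).reverse = seg u i (n + m)) :
    ∑ k ∈ Finset.range n, f (seg u (i + k) (m + 1)) = 0 := by
  have hpi := pal_index hpal
  have h1 : ∑ k ∈ Finset.range n, f (seg u (i + (n - 1 - k)) (m + 1)) =
      ∑ k ∈ Finset.range n, f (seg u (i + k) (m + 1)) :=
    Finset.sum_range_reflect (fun k => f (seg u (i + k) (m + 1))) n
  have h2 : ∑ k ∈ Finset.range n, f (seg u (i + (n - 1 - k)) (m + 1)) =
      ∑ k ∈ Finset.range n, - f (seg u (i + k) (m + 1)) := by
    apply Finset.sum_congr rfl
    intro k hk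
    rw [Finset.mem_range] at hk
    rw [← hf]
    congr 1
    rw [seg_eq_reverse_iff]
    intro s hs
    have := hpi (n - 1 - k + s) (by omega)
    rw [Nat.add_assoc, this]
    congr 1
    omega
  rw [h1, Finset.sum_neg_distrib] at h2
  linarith

theorem ex_large {u : ℕ → A} {K : ℕ} (hK : UPS u K) {m : ℕ} (hm : K ≤ m) : EX u m := by
  intro f hf
  apply exact_of_const
  apply tree_const hK hm (fun i => ∑ k ∈ Finset.range i, f (seg u k (m + 1)))
  intro i j hij hpal _
  show ∑ k ∈ Finset.range i, f (seg u k (m + 1)) = ∑ k ∈ Finset.range j, f (seg u k (m + 1))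
  have h1 := sum_pal_zero f hf hpal
  have h2 : j = i + (j - i) := by omega
  conv_rhs => rw [h2, Finset.sum_range_add]
  rw [h1, add_zero]

/-- closure under reversal -/
def CR (u : ℕ → A) : Prop := ∀ i n, ∃ j, (seg u i n).reverse = seg u j n

/-- recurrence -/
def Rec (u : ℕ → A) : Prop := ∀ i n N, ∃ j, N ≤ j ∧ seg u j n = seg u i n

theorem cr_of_ups {u : ℕ → A} {K : ℕ} (hK : UPS u K) (hr : Rec u) : CR u := by
  intro i n
  obtain ⟨j, hj, hj'⟩ := hr i n (i + K + 1)
  obtain ⟨l, hl1, hl2, hpal, huni⟩ := hK (j + n) (by omega)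
  have hpi := pal_index hpal
  rw [seg_eq_iff] at hj'
  rcases Nat.lt_or_ge n l with h | h
  · refine ⟨j + n - l, ?_⟩
    symm
    rw [seg_eq_reverse_iff]
    intro k hk
    rw [hpi k (by omega), ← hj' _ (by omega)]
    congr 1
    omega
  · exfalso
    apply huni (i + (n - l)) (by omega)
    rw [seg_eq_iff]
    intro k hk
    have := hj' (n - l + k) (by omega)
    rw [Nat.add_assoc, ← this]
    congr 1
    omega

end Pool.Agent.R113.ZD
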